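import Pool.Agent.H711.LI.Main

/-!
# MP_397c7d_co, Q1: no nontrivial lattice identity holds in all the lattices `R(G)`

`G` is a graph, `so G` the set of the nonempty sets of vertices which induce a connected subgraph,
`cl` the least closed family (a family is closed if it contains `X ∪ Y ∈ so G` with `X` and `Y`
disjoint), `R G` the lattice of the regular closed families ordered by inclusion.

Every lattice identity which fails in some lattice fails in `R G` for some finite graph `G`. So the
lattices `R G`, `G` a finite graph, generate the variety of all lattices.

Proof. Let `p ≰ q` in some lattice. As in the solution of the question for transitive relations
(MP_5c7113_al, Q1) consider the finite tree of the words of labels over the subterms of `p` and `q`.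
The graph has two tokens, a left one and a right one, for every word, a hub adjacent to all tokens,
and for every two tokens with incomparable words a link adjacent to just these two. A set which
contains the hub and all links is connected iff the words of the missing tokens are pairwise
comparable, and then it is labelled by the longest words of its missing left and right tokens.
The other connected sets are single tokens and sets without the hub or without some link; a
disjoint union of two connected sets is a labelled set only if one of the two is a token or exactly
one of them contains the hub. The terms are evaluated by induction.
-/

set_option autoImplicit false

namespace Pool.Agent.Results.MP_397c7d_co.NoIdentityRG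

open Pool.Agent.H711.LI

universe u

/-- For every lattice identity `s = t` which fails in some lattice `K` (in any universe) there is a
finite graph `G` such that the lattice `R G` fails it. Equivalently, a lattice identity which holds
in all `R G`, `G` a finite graph, holds in every lattice. -/
theorem result (s t : LTerm) :
    ((∃ (K : Type u) (_ : Lattice K) (v : ℕ → K), s.eval v ≠ t.eval v) →
      ∃ (V : Type) (_ : Finite V) (G : SimpleGraph V) (F : ℕ → R G), s.eval F ≠ t.eval F) ∧
    ((∀ (V : Type) [Finite V] (G : SimpleGraph V) (F : ℕ → R G), s.eval F = t.eval F) →
      ∀ (K : Type u) [Lattice K] (v : ℕ → K), s.eval v = t.eval v) := by
  refine ⟨?_, fun h K _ v => main s t h K v⟩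
  rintro ⟨K, _, v, hne⟩
  by_contra hcon
  push Not at hcon
  exact hne (main s t (fun V hV G F => hcon V hV G F) K v)

end Pool.Agent.Results.MP_397c7d_co.NoIdentityRG
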